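import Pool.Agent.H230R3.GD.Fin

set_option autoImplicit false
open Set Metric Filter Topology MeasureTheory
open scoped ENNReal

namespace Pool.Agent.Results.MP_ab3705_an.GdeltaClass

open Pool.Agent.H230R3.GD

/-- For every real `t > 0`, the Banach space `X_t` (the Hilbert space `ℓ₂` with the norm
`‖h‖₂ + t |h₀|`) is separable and infinite-dimensional, it is not linearly isometric to `L_p[0,1]`
for any `p ∈ [1,∞)` and it is not the Gurarii space, and its isometry class is a nonempty `G_δ` set
both in `𝒫_∞` and in `ℬ`; the spaces `X_t` are pairwise non-isometric.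
(That the space coded by a pseudonorm is unique up to linear isometry, and that being coded is
invariant under linear isometry, are the lemmas `codes_unique` and `codes_congr`.) -/
theorem result (t : ℝ) (ht : 0 < t) :
    CompleteSpace (Sp t) ∧ TopologicalSpace.SeparableSpace (Sp t) ∧
    ¬ FiniteDimensional ℝ (Sp t) ∧ ¬ IsLp01 (Sp t) ∧ ¬ IsGurarii (Sp t) ∧
    IsGδ (classP (Sp t)) ∧ (classP (Sp t)).Nonempty ∧
    IsGδ (classB (Sp t)) ∧ (classB (Sp t)).Nonempty ∧
    ∀ s : ℝ, 0 < s → s ≠ t → ¬ AreIsometric (Sp s) (Sp t) := by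
  refine ⟨inferInstanceAs (CompleteSpace (Xt t)), separableSpace_Xt t, not_finiteDimensional_Xt t,
      ?_, not_isGurarii ht,
      isGδ_class continuous_subtype_val (fun a => a.2) ht, ?_,
      isGδ_class continuous_subtype_val (fun a => a.2.1) ht, ?_, fun s hs hst hΦ => ?_⟩
  · rintro ⟨p, hp1, hp, ⟨Φ⟩⟩
    exact (not_LpI ht p hp).false Φ
  · exact ⟨⟨code t, (code_mem_BInf t).1⟩, codes_code t⟩
  · exact ⟨⟨code t, code_mem_BInf t⟩, codes_code t⟩
  · obtain ⟨Φ⟩ : Nonempty (Xt s ≃ₗᵢ[ℝ] Xt t) := hΦ
    rcases lt_or_gt_of_ne hst with h | h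
    · exact codes_notMem hs.le h (codes_code t) (codes_mem hs.le (codes_congr Φ.symm (codes_code t)))
    · exact codes_notMem ht.le h (codes_code s) (codes_mem ht.le (codes_congr Φ (codes_code s)))

end Pool.Agent.Results.MP_ab3705_an.GdeltaClass
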